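import Mathlib

/-!
Metric bound for the perfect powers among the numbers `⌊α n^c⌋ + d`.
-/

set_option autoImplicit false

namespace Pool.Agent.K4H74.MB

open MeasureTheory Filter Topology Finset

/-- perfect powers -/
def IsPP (m : ℕ) : Prop := ∃ y j : ℕ, 2 ≤ y ∧ 2 ≤ j ∧ m = y ^ j

/-- the interval attached to a number -/
def iv (t D : ℝ) (z : ℕ) : Set ℝ := Set.Icc ((z - D) / t) ((z + 1) / t)

lemma vol_iv {t D : ℝ} (ht : 0 < t) (z : ℕ) :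
    volume (iv t D z) ≤ ENNReal.ofReal ((D + 1) / t) := by
  rw [iv, Real.volume_Icc]
  apply ENNReal.ofReal_le_ofReal
  rw [← sub_div]
  apply div_le_div_of_nonneg_right _ ht.le
  linarith

/-- the union of the intervals attached to the perfect powers up to `X` -/
def gs (t D X : ℝ) : Set ℝ :=
  ⋃ p ∈ (Finset.range (⌊Real.sqrt X⌋₊ + 1)) ×ˢ (Finset.range (⌊16 * X ^ (1 / 8 : ℝ)⌋₊ + 1)),
    iv t D (p.1 ^ p.2)

lemma measurable_gs (t D X : ℝ) : MeasurableSet (gs t D X) := by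
  refine Finset.measurableSet_biUnion _ fun p _ => ?_
  exact measurableSet_Icc

lemma mem_gs {t D X α b : ℝ} (ht : 0 < t) (hα : 0 < α) (hαb : α ≤ b)
    (hX : b * t + D ≤ X) {d : ℕ} (hd : (d : ℝ) ≤ D) (h : IsPP (⌊α * t⌋₊ + d)) :
    α ∈ gs t D X := by
  obtain ⟨y, j, hy, hj, h1⟩ := h
  have hf : ((⌊α * t⌋₊ : ℕ) : ℝ) ≤ α * t := Nat.floor_le (by positivity)
  have hf2 : α * t < (⌊α * t⌋₊ : ℕ) + 1 := Nat.lt_floor_add_one _
  have hd0 : (0 : ℝ) ≤ d := by positivity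
  have h2 : ((y : ℝ) ^ j) = (⌊α * t⌋₊ : ℕ) + d := by exact_mod_cast h1.symm
  have h3 : (y : ℝ) ^ j ≤ X := by
    have h4 : α * t ≤ b * t := by nlinarith
    linarith
  have hy2 : (2 : ℝ) ≤ y := by exact_mod_cast hy
  have h5 : (y : ℝ) ^ 2 ≤ X := (pow_le_pow_right₀ (by linarith) hj).trans h3
  have h6 : (2 : ℝ) ^ j ≤ X := (pow_le_pow_left₀ (by norm_num) hy2 j).trans h3
  have hX0 : 0 < X := lt_of_lt_of_le (by positivity) h6
  refine Set.mem_biUnion (x := (y, j)) ?_ ?_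
  · simp only [Finset.coe_product, Finset.coe_range, Set.mem_prod, Set.mem_Iio]
    constructor
    · have : y ≤ ⌊Real.sqrt X⌋₊ := Nat.le_floor (Real.le_sqrt_of_sq_le h5)
      omega
    · have h7 : (j : ℝ) * Real.log 2 ≤ Real.log X := by
        rw [← Real.log_pow]
        exact Real.log_le_log (by positivity) h6
      have h8 : Real.log X ≤ X ^ (1 / 8 : ℝ) / (1 / 8) :=
        Real.log_le_rpow_div hX0.le (by norm_num)
      have h9 : (0.5 : ℝ) ≤ Real.log 2 := by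
        have := Real.log_two_gt_d9
        linarith
      have hj0 : (0 : ℝ) ≤ j := by positivity
      have h10 : (j : ℝ) ≤ 16 * X ^ (1 / 8 : ℝ) := by nlinarith
      have : j ≤ ⌊16 * X ^ (1 / 8 : ℝ)⌋₊ := Nat.le_floor h10
      omega
  · show α ∈ iv t D (y ^ j)
    rw [iv, Set.mem_Icc, div_le_iff₀ ht, le_div_iff₀ ht]
    push_cast
    constructor <;> linarith

lemma vol_gs {t D X : ℝ} (ht : 0 < t) (hD : 0 ≤ D) (hX : 1 ≤ X) :
    volume (gs t D X) ≤ ENNReal.ofReal (34 * X ^ (5 / 8 : ℝ) * ((D + 1) / t)) := by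
  refine (measure_biUnion_finset_le _ _).trans ?_
  refine (Finset.sum_le_sum fun p _ => vol_iv (D := D) ht (p.1 ^ p.2)).trans ?_
  rw [Finset.sum_const, nsmul_eq_mul, Finset.card_product, Finset.card_range, Finset.card_range,
    ← ENNReal.ofReal_natCast, ← ENNReal.ofReal_mul (by positivity)]
  apply ENNReal.ofReal_le_ofReal
  have h1 : ((⌊Real.sqrt X⌋₊ : ℕ) : ℝ) ≤ X ^ (1 / 2 : ℝ) := by
    rw [← Real.sqrt_eq_rpow]
    exact Nat.floor_le (Real.sqrt_nonneg _)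
  have h2 : ((⌊16 * X ^ (1 / 8 : ℝ)⌋₊ : ℕ) : ℝ) ≤ 16 * X ^ (1 / 8 : ℝ) :=
    Nat.floor_le (by positivity)
  have h3 : (1 : ℝ) ≤ X ^ (1 / 2 : ℝ) := Real.one_le_rpow hX (by norm_num)
  have h4 : (1 : ℝ) ≤ X ^ (1 / 8 : ℝ) := Real.one_le_rpow hX (by norm_num)
  have h5 : X ^ (5 / 8 : ℝ) = X ^ (1 / 2 : ℝ) * X ^ (1 / 8 : ℝ) := by
    rw [← Real.rpow_add (by linarith)]
    norm_num
  have h6 : (((⌊Real.sqrt X⌋₊ + 1) * (⌊16 * X ^ (1 / 8 : ℝ)⌋₊ + 1) : ℕ) : ℝ) ≤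
      34 * X ^ (5 / 8 : ℝ) := by
    push_cast
    rw [h5]
    calc ((⌊Real.sqrt X⌋₊ : ℕ) + 1 : ℝ) * ((⌊16 * X ^ (1 / 8 : ℝ)⌋₊ : ℕ) + 1) ≤
        (X ^ (1 / 2 : ℝ) + X ^ (1 / 2 : ℝ)) * (16 * X ^ (1 / 8 : ℝ) + X ^ (1 / 8 : ℝ)) := by
          gcongr
      _ = _ := by ring
  have h7 : 0 ≤ (D + 1) / t := by positivity
  exact mul_le_mul_of_nonneg_right h6 h7

lemma logpow (K : ℕ) {ε : ℝ} (hε : 0 < ε) :
    ∃ C : ℝ, 0 < C ∧ ∀ x : ℝ, 1 ≤ x → Real.log x ^ K ≤ C * x ^ ε := by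
  have hδ : 0 < ε / (K + 1) := by positivity
  refine ⟨1 / (ε / (K + 1)) ^ K, by positivity, fun x hx => ?_⟩
  have h1 : Real.log x ≤ x ^ (ε / (K + 1)) / (ε / (K + 1)) :=
    Real.log_le_rpow_div (by linarith) hδ
  have h0 : 0 ≤ Real.log x := Real.log_nonneg hx
  refine (pow_le_pow_left₀ h0 h1 K).trans ?_
  rw [div_pow, div_eq_mul_one_div, mul_comm]
  apply mul_le_mul_of_nonneg_left _ (by positivity)
  rw [← Real.rpow_natCast, ← Real.rpow_mul (by linarith)]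
  apply Real.rpow_le_rpow_of_exponent_le hx
  rw [div_mul_eq_mul_div, div_le_iff₀ (by positivity)]
  nlinarith

/-- the exponent -/
noncomputable def eta (c : ℝ) : ℝ := min (c / 8) (1 / 2)

lemma eta_pos {c : ℝ} (hc : 0 < c) : 0 < eta c := lt_min (by linarith) (by norm_num)

lemma eta_le (c : ℝ) : eta c ≤ 1 / 2 := min_le_right _ _

lemma eta_le' (c : ℝ) : eta c ≤ c / 8 := min_le_left _ _

/-- the sets -/
noncomputable def gn (c b C₁ : ℝ) (n : ℕ) : Set ℝ :=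
  gs ((n : ℝ) ^ c) (C₁ * (n : ℝ) ^ (c / 8)) ((b + C₁ + 1) * (n : ℝ) ^ c)

lemma measurable_gn (c b C₁ : ℝ) (n : ℕ) : MeasurableSet (gn c b C₁ n) := measurable_gs _ _ _

lemma vol_gn {c b C₁ : ℝ} (hc : 0 < c) (hb : 0 < b) (hC : 0 < C₁) {n : ℕ} (hn : 1 ≤ n) :
    volume (gn c b C₁ n) ≤
      ENNReal.ofReal (34 * (b + C₁ + 1) * (C₁ + 1) * (n : ℝ) ^ (-(c / 4))) := by
  have hn1 : (1 : ℝ) ≤ n := by exact_mod_cast hn
  have hn0 : (0 : ℝ) < n := by linarith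
  have ht : 0 < (n : ℝ) ^ c := Real.rpow_pos_of_pos hn0 _
  have ht1 : 1 ≤ (n : ℝ) ^ c := Real.one_le_rpow hn1 hc.le
  have ht2 : 1 ≤ (n : ℝ) ^ (c / 8) := Real.one_le_rpow hn1 (by linarith)
  refine (vol_gs (X := (b + C₁ + 1) * (n : ℝ) ^ c) ht (by positivity) (by nlinarith)).trans ?_
  apply ENNReal.ofReal_le_ofReal
  rw [Real.mul_rpow (by positivity) ht.le, ← Real.rpow_mul hn0.le]
  have h1 : (b + C₁ + 1) ^ (5 / 8 : ℝ) ≤ b + C₁ + 1 := by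
    calc (b + C₁ + 1) ^ (5 / 8 : ℝ) ≤ (b + C₁ + 1) ^ (1 : ℝ) :=
          Real.rpow_le_rpow_of_exponent_le (by linarith) (by norm_num)
      _ = b + C₁ + 1 := Real.rpow_one _
  have h2 : C₁ * (n : ℝ) ^ (c / 8) + 1 ≤ (C₁ + 1) * (n : ℝ) ^ (c / 8) := by nlinarith
  have h3 : (n : ℝ) ^ (-(c / 4)) =
      (n : ℝ) ^ (c * (5 / 8)) * ((n : ℝ) ^ (c / 8) / (n : ℝ) ^ c) := by
    rw [← Real.rpow_sub hn0, ← Real.rpow_add hn0]
    congr 1
    ring
  rw [h3]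
  calc 34 * ((b + C₁ + 1) ^ (5 / 8 : ℝ) * (n : ℝ) ^ (c * (5 / 8))) *
        ((C₁ * (n : ℝ) ^ (c / 8) + 1) / (n : ℝ) ^ c) ≤
      34 * ((b + C₁ + 1) * (n : ℝ) ^ (c * (5 / 8))) *
        (((C₁ + 1) * (n : ℝ) ^ (c / 8)) / (n : ℝ) ^ c) := by gcongr
    _ = _ := by ring

lemma ae_sum {c b C₁ : ℝ} (hc : 0 < c) (hb : 0 < b) (hC : 0 < C₁) :
    ∀ᵐ α : ℝ, ∑' n : ℕ, ENNReal.ofReal (((n + 1 : ℕ) : ℝ) ^ (-1 + eta c)) *
      (gn c b C₁ (n + 1)).indicator 1 α < ⊤ := by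
  have hmeas : ∀ n : ℕ, Measurable (fun α : ℝ =>
      ENNReal.ofReal (((n + 1 : ℕ) : ℝ) ^ (-1 + eta c)) *
      (gn c b C₁ (n + 1)).indicator (1 : ℝ → ENNReal) α) := fun n =>
    (measurable_const).mul (measurable_one.indicator (measurable_gn c b C₁ (n + 1)))
  apply ae_lt_top
  · exact Measurable.tsum hmeas
  · rw [lintegral_tsum (fun n => (hmeas n).aemeasurable)]
    have h1 : ∀ n : ℕ, ∫⁻ α, ENNReal.ofReal (((n + 1 : ℕ) : ℝ) ^ (-1 + eta c)) *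
        (gn c b C₁ (n + 1)).indicator 1 α ≤
        ENNReal.ofReal (34 * (b + C₁ + 1) * (C₁ + 1) * ((n + 1 : ℕ) : ℝ) ^ (-(1 + c / 8))) := by
      intro n
      have hn1 : (1 : ℝ) ≤ ((n + 1 : ℕ) : ℝ) := by
        push_cast
        linarith [(Nat.cast_nonneg n : (0 : ℝ) ≤ n)]
      rw [lintegral_const_mul _ (measurable_one.indicator (measurable_gn c b C₁ (n + 1))),
        lintegral_indicator_one (measurable_gn c b C₁ (n + 1))]
      refine (mul_le_mul_right (vol_gn hc hb hC (Nat.le_add_left 1 n)) _).trans ?_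
      rw [← ENNReal.ofReal_mul (by positivity)]
      apply ENNReal.ofReal_le_ofReal
      calc ((n + 1 : ℕ) : ℝ) ^ (-1 + eta c) *
            (34 * (b + C₁ + 1) * (C₁ + 1) * ((n + 1 : ℕ) : ℝ) ^ (-(c / 4))) =
          34 * (b + C₁ + 1) * (C₁ + 1) *
            (((n + 1 : ℕ) : ℝ) ^ (-1 + eta c) * ((n + 1 : ℕ) : ℝ) ^ (-(c / 4))) := by ring
        _ ≤ _ := by
          apply mul_le_mul_of_nonneg_left _ (by positivity)
          rw [← Real.rpow_add (by linarith)]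
          apply Real.rpow_le_rpow_of_exponent_le hn1
          linarith [eta_le' c]
    refine ne_top_of_le_ne_top ?_ (ENNReal.tsum_le_tsum h1)
    have h2 : Summable (fun n : ℕ =>
        34 * (b + C₁ + 1) * (C₁ + 1) * ((n + 1 : ℕ) : ℝ) ^ (-(1 + c / 8))) := by
      apply Summable.mul_left
      have h3 : Summable (fun n : ℕ => (n : ℝ) ^ (-(1 + c / 8))) :=
        Real.summable_nat_rpow.mpr (by linarith)
      exact (summable_nat_add_iff 1).mpr h3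
    rw [← ENNReal.ofReal_tsum_of_nonneg (fun n => by positivity) h2]
    exact ENNReal.ofReal_ne_top

open Classical in
lemma card_gn {c b C₁ α : ℝ}
    (h : ∑' n : ℕ, ENNReal.ofReal (((n + 1 : ℕ) : ℝ) ^ (-1 + eta c)) *
      (gn c b C₁ (n + 1)).indicator 1 α < ⊤) :
    ∃ C : ℝ, 0 ≤ C ∧ ∀ N : ℕ, 1 ≤ N →
      (((Finset.Icc 1 N).filter fun n : ℕ => α ∈ gn c b C₁ n).card : ℝ) ≤
        C * (N : ℝ) ^ (1 - eta c) := by
  set S := ∑' n : ℕ, ENNReal.ofReal (((n + 1 : ℕ) : ℝ) ^ (-1 + eta c)) *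
      (gn c b C₁ (n + 1)).indicator 1 α with hS
  refine ⟨S.toReal, ENNReal.toReal_nonneg, fun N hN => ?_⟩
  have hN0 : (0 : ℝ) < N := by exact_mod_cast hN
  have h1 : (((Finset.Icc 1 N).filter fun n : ℕ => α ∈ gn c b C₁ n).card : ENNReal) *
      ENNReal.ofReal ((N : ℝ) ^ (-1 + eta c)) ≤ S := by
    have h2 : ∑ n ∈ Finset.range N, ENNReal.ofReal (((n + 1 : ℕ) : ℝ) ^ (-1 + eta c)) *
        (gn c b C₁ (n + 1)).indicator 1 α ≤ S := ENNReal.sum_le_tsum _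
    refine le_trans ?_ h2
    have h3 : ∑ n ∈ Finset.range N, ENNReal.ofReal (((n + 1 : ℕ) : ℝ) ^ (-1 + eta c)) *
        (gn c b C₁ (n + 1)).indicator 1 α =
        ∑ n ∈ Finset.Icc 1 N, ENNReal.ofReal (((n : ℕ) : ℝ) ^ (-1 + eta c)) *
        (gn c b C₁ n).indicator 1 α := by
      rw [Finset.range_eq_Ico, Finset.sum_Ico_add' (fun n : ℕ =>
        ENNReal.ofReal (((n : ℕ) : ℝ) ^ (-1 + eta c)) * (gn c b C₁ n).indicator 1 α) 0 N 1]
      congr 1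
    rw [h3, ← nsmul_eq_mul, ← Finset.sum_const, Finset.sum_filter]
    apply Finset.sum_le_sum
    intro n hn
    rw [Finset.mem_Icc] at hn
    split_ifs with h4
    · rw [Set.indicator_of_mem h4]
      simp only [Pi.one_apply, mul_one]
      apply ENNReal.ofReal_le_ofReal
      apply Real.rpow_le_rpow_of_nonpos (by exact_mod_cast hn.1) (by exact_mod_cast hn.2)
      linarith [eta_le c]
    · exact bot_le
  have h5 : (((Finset.Icc 1 N).filter fun n : ℕ => α ∈ gn c b C₁ n).card : ℝ) *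
      (N : ℝ) ^ (-1 + eta c) ≤ S.toReal := by
    have h6 := (ENNReal.toReal_le_toReal (by
      exact ENNReal.mul_ne_top (ENNReal.natCast_ne_top _) ENNReal.ofReal_ne_top) h.ne).mpr h1
    rwa [ENNReal.toReal_mul, ENNReal.toReal_natCast,
      ENNReal.toReal_ofReal (by positivity)] at h6
  have h7 : (N : ℝ) ^ (1 - eta c) * (N : ℝ) ^ (-1 + eta c) = 1 := by
    rw [← Real.rpow_add hN0]
    simp
  have h8 : 0 < (N : ℝ) ^ (1 - eta c) := by positivity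
  calc (((Finset.Icc 1 N).filter fun n : ℕ => α ∈ gn c b C₁ n).card : ℝ) =
      (((Finset.Icc 1 N).filter fun n : ℕ => α ∈ gn c b C₁ n).card : ℝ) *
        (N : ℝ) ^ (-1 + eta c) * (N : ℝ) ^ (1 - eta c) := by
        rw [mul_assoc, mul_comm ((N : ℝ) ^ (-1 + eta c)), h7, mul_one]
    _ ≤ _ := mul_le_mul_of_nonneg_right h5 h8.le

open Classical in
/-- the bound for the perfect powers -/
def PPB (α c : ℝ) : Prop := ∀ A K : ℕ, ∃ C : ℝ, 0 ≤ C ∧ ∀ N : ℕ, 1 ≤ N →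
  (((Finset.Icc 1 N).filter fun n : ℕ => ∃ d : ℕ, (d : ℝ) ≤ Real.log N ^ A ∧
    IsPP (⌊α * (n : ℝ) ^ c⌋₊ + d)).card : ℝ) * Real.log N ^ K ≤ C * N

lemma ppb_of {c α : ℝ} (hc : 0 < c) (hα : 0 < α)
    (h : ∀ b C₁ : ℕ, 0 < b → 0 < C₁ →
      ∑' n : ℕ, ENNReal.ofReal (((n + 1 : ℕ) : ℝ) ^ (-1 + eta c)) *
      (gn c b C₁ (n + 1)).indicator 1 α < ⊤) : PPB α c := by
  classical
  intro A K
  obtain ⟨C₀, hC₀, hC₀'⟩ := logpow A (ε := c / 8) (by linarith)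
  obtain ⟨C₁, hC₁⟩ := exists_nat_gt (2 ^ A * C₀)
  have hC₁0 : (0 : ℝ) < C₁ := lt_trans (by positivity) hC₁
  obtain ⟨b, hb⟩ := exists_nat_gt α
  have hb0 : (0 : ℝ) < b := hα.trans hb
  obtain ⟨C₂, hC₂, hC₂'⟩ := card_gn (h b C₁ (by exact_mod_cast hb0) (by exact_mod_cast hC₁0))
  obtain ⟨C₃, hC₃, hC₃'⟩ := logpow K (eta_pos hc)
  obtain ⟨C₄, hC₄, hC₄'⟩ := logpow K (ε := 1 / 2) (by norm_num)
  refine ⟨C₄ + C₂ * C₃, by positivity, fun N hN => ?_⟩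
  have hN1 : (1 : ℝ) ≤ N := by exact_mod_cast hN
  have hN0 : (0 : ℝ) < N := by linarith
  have hL : 0 ≤ Real.log N := Real.log_nonneg hN1
  have hsub : ((Finset.Icc 1 N).filter fun n : ℕ => ∃ d : ℕ, (d : ℝ) ≤ Real.log N ^ A ∧
      IsPP (⌊α * (n : ℝ) ^ c⌋₊ + d)) ⊆
      Finset.Icc 1 ⌊Real.sqrt N⌋₊ ∪ ((Finset.Icc 1 N).filter fun n : ℕ => α ∈ gn c b C₁ n) := by
    intro n hn
    rw [Finset.mem_filter, Finset.mem_Icc] at hn
    obtain ⟨⟨hn1, hn2⟩, d, hd, hpp⟩ := hn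
    rw [Finset.mem_union, Finset.mem_Icc, Finset.mem_filter, Finset.mem_Icc]
    by_cases h1 : (n : ℝ) ≤ Real.sqrt N
    · exact Or.inl ⟨hn1, Nat.le_floor h1⟩
    · right
      refine ⟨⟨hn1, hn2⟩, ?_⟩
      push Not at h1
      have hn1' : (1 : ℝ) ≤ n := by exact_mod_cast hn1
      have hn0 : (0 : ℝ) < n := by linarith
      have h2 : Real.log N ≤ 2 * Real.log n := by
        have h3 : (N : ℝ) ≤ (n : ℝ) ^ 2 := by
          have h4 := (Real.sqrt_lt' hn0).mp h1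
          exact h4.le
        have h4 := Real.log_le_log hN0 h3
        rwa [Real.log_pow] at h4
      have h5 : (d : ℝ) ≤ C₁ * (n : ℝ) ^ (c / 8) := by
        have h6 := hC₀' n hn1'
        calc (d : ℝ) ≤ Real.log N ^ A := hd
          _ ≤ (2 * Real.log n) ^ A := pow_le_pow_left₀ hL h2 A
          _ = 2 ^ A * Real.log n ^ A := by rw [mul_pow]
          _ ≤ 2 ^ A * (C₀ * (n : ℝ) ^ (c / 8)) := by gcongr
          _ = (2 ^ A * C₀) * (n : ℝ) ^ (c / 8) := by ring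
          _ ≤ C₁ * (n : ℝ) ^ (c / 8) := by gcongr
      have ht : 0 < (n : ℝ) ^ c := Real.rpow_pos_of_pos hn0 _
      have h7 : (n : ℝ) ^ (c / 8) ≤ (n : ℝ) ^ c :=
        Real.rpow_le_rpow_of_exponent_le hn1' (by linarith)
      exact mem_gs (b := b) ht hα hb.le (by nlinarith) h5 hpp
  have hcard : (((Finset.Icc 1 N).filter fun n : ℕ => ∃ d : ℕ, (d : ℝ) ≤ Real.log N ^ A ∧
      IsPP (⌊α * (n : ℝ) ^ c⌋₊ + d)).card : ℝ) ≤
      (N : ℝ) ^ (1 / 2 : ℝ) + C₂ * (N : ℝ) ^ (1 - eta c) := by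
    have h1 := (Finset.card_le_card hsub).trans (Finset.card_union_le _ _)
    have h2 : (((Finset.Icc 1 N).filter fun n : ℕ => ∃ d : ℕ, (d : ℝ) ≤ Real.log N ^ A ∧
      IsPP (⌊α * (n : ℝ) ^ c⌋₊ + d)).card : ℝ) ≤ ((Finset.Icc 1 ⌊Real.sqrt N⌋₊).card : ℝ) +
        (((Finset.Icc 1 N).filter fun n : ℕ => α ∈ gn c b C₁ n).card : ℝ) := by
      exact_mod_cast h1
    refine h2.trans (add_le_add ?_ (hC₂' N hN))
    rw [Nat.card_Icc, ← Real.sqrt_eq_rpow]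
    simp only [Nat.add_sub_cancel]
    exact Nat.floor_le (Real.sqrt_nonneg _)
  have h3 : (N : ℝ) ^ (1 / 2 : ℝ) * (N : ℝ) ^ (1 / 2 : ℝ) = N := by
    rw [← Real.rpow_add hN0]
    norm_num
  have h4 : (N : ℝ) ^ (1 - eta c) * (N : ℝ) ^ (eta c) = N := by
    rw [← Real.rpow_add hN0]
    norm_num
  have hK : 0 ≤ Real.log N ^ K := by positivity
  calc _ ≤ ((N : ℝ) ^ (1 / 2 : ℝ) + C₂ * (N : ℝ) ^ (1 - eta c)) * Real.log N ^ K :=
        mul_le_mul_of_nonneg_right hcard hK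
    _ = (N : ℝ) ^ (1 / 2 : ℝ) * Real.log N ^ K +
        C₂ * ((N : ℝ) ^ (1 - eta c) * Real.log N ^ K) := by ring
    _ ≤ (N : ℝ) ^ (1 / 2 : ℝ) * (C₄ * (N : ℝ) ^ (1 / 2 : ℝ)) +
        C₂ * ((N : ℝ) ^ (1 - eta c) * (C₃ * (N : ℝ) ^ (eta c))) := by
        have h5 := hC₃' N hN1
        have h6 := hC₄' N hN1
        gcongr
    _ = C₄ * ((N : ℝ) ^ (1 / 2 : ℝ) * (N : ℝ) ^ (1 / 2 : ℝ)) +
        C₂ * C₃ * ((N : ℝ) ^ (1 - eta c) * (N : ℝ) ^ (eta c)) := by ring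
    _ = (C₄ + C₂ * C₃) * N := by
        rw [h3, h4]
        ring

lemma ae_ppb {c : ℝ} (hc : 0 < c) : ∀ᵐ α : ℝ, 0 < α → PPB α c := by
  have h : ∀ᵐ α : ℝ, ∀ b C₁ : ℕ, 0 < b → 0 < C₁ →
      ∑' n : ℕ, ENNReal.ofReal (((n + 1 : ℕ) : ℝ) ^ (-1 + eta c)) *
      (gn c b C₁ (n + 1)).indicator 1 α < ⊤ := by
    rw [ae_all_iff]
    intro b
    rw [ae_all_iff]
    intro C₁
    by_cases hb : 0 < b
    · by_cases hC : 0 < C₁
      · filter_upwards [ae_sum hc (b := b) (C₁ := C₁) (by exact_mod_cast hb)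
          (by exact_mod_cast hC)] with α hα _ _
        exact hα
      · exact Filter.Eventually.of_forall fun α _ h => absurd h hC
    · exact Filter.Eventually.of_forall fun α h => absurd h hb
  filter_upwards [h] with α hα h0
  exact ppb_of hc h0 hα

lemma ae_ppb_all {k : ℕ} {c : Fin k → ℝ} (hc : ∀ i, 0 < c i) :
    ∀ᵐ α ∂((volume : Measure (Fin k → ℝ)).restrict {α | ∀ i, 0 < α i}),
      (∀ i, 0 < α i) ∧ ∀ i, PPB (α i) (c i) := by
  have h1 : ∀ᵐ α : Fin k → ℝ, ∀ i, 0 < α i → PPB (α i) (c i) := by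
    rw [ae_all_iff]
    intro i
    exact (Measure.quasiMeasurePreserving_eval (fun _ : Fin k => (volume : Measure ℝ)) i).ae
      (ae_ppb (hc i))
  have hm : MeasurableSet {α : Fin k → ℝ | ∀ i, 0 < α i} := by
    rw [Set.setOf_forall]
    exact MeasurableSet.iInter fun i => measurableSet_lt measurable_const (measurable_pi_apply i)
  rw [ae_restrict_iff' hm]
  filter_upwards [h1] with α hα h0
  exact ⟨h0, fun i => hα i (h0 i)⟩

end Pool.Agent.K4H74.MB
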